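import Pool.Agent.Lib_helper96.VR.Main

/-!
# Virtual maps onto the p-adic integers and the FAb property of the pro-p completion
-/

set_option autoImplicit false

open Pool.Agent.Lib_helper96.VR

namespace Pool.Agent.Results.MP_3f8898_al.NonFAbCompletions

/-- For a finitely generated group `G` (for example a `PD_3`-group) and a prime `p`:
`G` is virtually representable onto the `p`-adic integers iff some subgroup `H` of finite index has
infinite abelianization iff some subgroup `H` of finite index has a pro-`p` completion which is not
FAb. The group `H` can be taken open in the pro-`p` topology of `G` iff the pro-`p` completion of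
`G` itself is not FAb, iff that completion has an infinite virtually soluble quotient. -/
theorem result (p : ℕ) [Fact p.Prime] (G : Type) [Group G] [Group.FG G] :
    (VirtuallyRepresentable p G ↔
      ∃ H : Subgroup G, H.FiniteIndex ∧ Infinite (Abelianization H)) ∧
    (VirtuallyRepresentable p G ↔ ∃ H : Subgroup G, H.FiniteIndex ∧ NotFAb (ProP p H)) ∧
    ((∃ H : Subgroup G, ProPOpen p H ∧ Representable p H) ↔ NotFAb (ProP p G)) ∧
    (NotFAb (ProP p G) ↔ InfVSol (ProP p G)) := by
  refine ⟨vr_iff, vr_iff_fab, ⟨?_, ?_⟩, fab_iff⟩
  · rintro ⟨H, h1, h2⟩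
    exact not_fab_of_rep h1 h2
  · rintro ⟨U, h1, h2⟩
    exact rep_of_not_fab h1 h2

end Pool.Agent.Results.MP_3f8898_al.NonFAbCompletions
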